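import Pool.Agent.Helper15_SIQ.Stmts

/-!
# MP_021b97_an, Q1: pull-back by `qm g`
-/

set_option autoImplicit false

open MeasureTheory Filter Topology

namespace Pool.Agent.SIQ.H75

open Pool.Agent.SIU

/-! ## pull-back by complex linear maps -/

theorem lp_apply {N k : ℕ} (L : (Fin N → ℂ) →L[ℂ] (Fin N → ℂ)) (η : (Fin N → ℂ) → Alt N k)
    (z : Fin N → ℂ) (v : Fin k → Fin N → ℂ) : lp L η z v = η (L z) (fun i => L (v i)) := rfl

theorem lp_eq {N k : ℕ} (L : (Fin N → ℂ) →L[ℂ] (Fin N → ℂ)) (η : (Fin N → ℂ) → Alt N k) :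
    lp L η = fun z => ContinuousAlternatingMap.compContinuousLinearMapCLM
      (L.restrictScalars ℝ) (η (L z)) := by
  funext z
  rfl

theorem lp_smooth {N k : ℕ} (m : WithTop ℕ∞) (L : (Fin N → ℂ) →L[ℂ] (Fin N → ℂ))
    {η : (Fin N → ℂ) → Alt N k} {V W : Set (Fin N → ℂ)} (h : ContDiffOn ℝ m η W)
    (hm : ∀ z ∈ V, L z ∈ W) : ContDiffOn ℝ m (lp L η) V := by
  rw [lp_eq]
  have h1 : ContDiffOn ℝ m (fun z => η (L z)) V :=
    h.comp (L.restrictScalars ℝ).contDiff.contDiffOn hm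
  exact (ContinuousLinearMap.contDiff _).comp_contDiffOn h1

theorem lp_cont {N k : ℕ} (L : (Fin N → ℂ) →L[ℂ] (Fin N → ℂ))
    {η : (Fin N → ℂ) → Alt N k} {V W : Set (Fin N → ℂ)} (h : ContinuousOn η W)
    (hm : ∀ z ∈ V, L z ∈ W) : ContinuousOn (lp L η) V := by
  rw [lp_eq]
  have h1 : ContinuousOn (fun z => η (L z)) V := h.comp L.continuous.continuousOn hm
  exact (ContinuousLinearMap.continuous _).comp_continuousOn h1

theorem lp_extDeriv {N k : ℕ} (L : (Fin N → ℂ) →L[ℂ] (Fin N → ℂ))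
    {η : (Fin N → ℂ) → Alt N k} {z : Fin N → ℂ} (h : DifferentiableAt ℝ η (L z)) :
    extDeriv (lp L η) z = lp L (extDeriv η) z := by
  have hL : ∀ x : Fin N → ℂ, fderiv ℝ (fun w : Fin N → ℂ => L w) x = L.restrictScalars ℝ :=
    fun x => ((L.restrictScalars ℝ).hasFDerivAt).fderiv
  have h1 : lp L η = fun x => (η ((fun w : Fin N → ℂ => L w) x)).compContinuousLinearMap
      (fderiv ℝ (fun w : Fin N → ℂ => L w) x) := by
    funext x
    rw [hL]
    rfl
  have h2 := extDeriv_pullback (𝕜 := ℝ) (ω := η) (f := fun w : Fin N → ℂ => L w) (x := z) (r := 2)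
    h ((L.restrictScalars ℝ).contDiff.contDiffAt) (by simp)
  rw [h1, h2, hL]
  rfl

theorem mulC_comm {N : ℕ} (L : (Fin N → ℂ) →L[ℂ] (Fin N → ℂ)) (u : ℂ) (v : Fin N → ℂ) :
    L (mulC N u v) = mulC N u (L v) := by
  show L (u • v) = u • L v
  exact map_smul L u v

theorem lp_rot {N k : ℕ} (L : (Fin N → ℂ) →L[ℂ] (Fin N → ℂ)) (u : ℂ)
    (η : (Fin N → ℂ) → Alt N k) (z : Fin N → ℂ) :
    (lp L η z).compContinuousLinearMap (mulC N u) =
      lp L (fun w => (η w).compContinuousLinearMap (mulC N u)) z := by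
  ext v
  show η (L z) (fun i => L (mulC N u (v i))) = η (L z) (fun i => mulC N u (L (v i)))
  congr 1
  funext i
  exact mulC_comm L u (v i)

theorem ext_comp_diff {N k : ℕ} {η : (Fin N → ℂ) → Alt N k} {V : Set (Fin N → ℂ)}
    (hV : IsOpen V) (h : ContDiffOn ℝ 2 η V) (u : ℂ) {z : Fin N → ℂ} (hz : z ∈ V) :
    DifferentiableAt ℝ (fun w => (extDeriv η w).compContinuousLinearMap (mulC N u)) z := by
  have h1 : ContDiffOn ℝ 1 (fderiv ℝ η) V := h.fderiv_of_isOpen hV (by norm_num)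
  have h2 : DifferentiableAt ℝ (fderiv ℝ η) z :=
    (h1.contDiffAt (hV.mem_nhds hz)).differentiableAt (by simp)
  have h3 : (fun w => (extDeriv η w).compContinuousLinearMap (mulC N u)) = fun w =>
      ContinuousAlternatingMap.compContinuousLinearMapCLM (mulC N u)
        (ContinuousAlternatingMap.alternatizeUncurryFinCLM ℝ (Fin N → ℂ) ℝ (fderiv ℝ η w)) := by
    funext w
    rfl
  rw [h3]
  have h4 : DifferentiableAt ℝ (fun w =>
      ContinuousAlternatingMap.alternatizeUncurryFinCLM ℝ (Fin N → ℂ) ℝ (fderiv ℝ η w)) z :=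
    (ContinuousAlternatingMap.alternatizeUncurryFinCLM ℝ (Fin N → ℂ) ℝ).differentiableAt.comp z h2
  exact (ContinuousAlternatingMap.compContinuousLinearMapCLM (mulC N u)).differentiableAt.comp z h4

theorem lp_ddc {N k : ℕ} (L : (Fin N → ℂ) →L[ℂ] (Fin N → ℂ))
    {η : (Fin N → ℂ) → Alt N k} {V : Set (Fin N → ℂ)} (hV : IsOpen V) (hm : ∀ z ∈ V, L z ∈ V)
    (h : ContDiffOn ℝ 2 η V) {z : Fin N → ℂ} (hz : z ∈ V) :
    ddc (lp L η) z = lp L (ddc η) z := by
  have hd : ∀ w ∈ V, DifferentiableAt ℝ η (L w) := fun w hw =>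
    (h.contDiffAt (hV.mem_nhds (hm w hw))).differentiableAt (by simp)
  have h1 : (fun w => (extDeriv (lp L η) w).compContinuousLinearMap (mulC N Complex.I)) =ᶠ[𝓝 z]
      lp L (fun w => (extDeriv η w).compContinuousLinearMap (mulC N Complex.I)) := by
    filter_upwards [hV.mem_nhds hz] with w hw
    rw [lp_extDeriv L (hd w hw), lp_rot]
  unfold ddc
  rw [h1.extDeriv_eq, lp_extDeriv L (ext_comp_diff hV h _ (hm z hz))]
  ext v
  rfl

theorem lp_wpos {N q : ℕ} (L : (Fin N → ℂ) →L[ℂ] (Fin N → ℂ)) {a : Alt N (2 * q)}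
    (h : WPos q a) : WPos q (a.compContinuousLinearMap (L.restrictScalars ℝ)) := by
  intro v
  have h1 := h (fun n => L (v n))
  have h2 : (cvec (fun n => L (v n)) (2 * q)) = fun i => L (cvec v (2 * q) i) := by
    funext i
    unfold cvec
    split_ifs with hi
    · rfl
    · exact (map_smul L Complex.I _).symm
  rw [h2] at h1
  exact h1

theorem lp_spos {N q : ℕ} (L : (Fin N → ℂ) →L[ℂ] (Fin N → ℂ)) {a : Alt N (2 * q)}
    (h : SPos q a) : SPos q (a.compContinuousLinearMap (L.restrictScalars ℝ)) := by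
  obtain ⟨m, c, M, hc, hM⟩ := h
  refine ⟨m, c, fun l n => (M l n).comp L.toLinearMap, hc, fun v => ?_⟩
  have h1 : a.compContinuousLinearMap (L.restrictScalars ℝ) v = a (fun i => L (v i)) := rfl
  rw [h1, hM]
  rfl

theorem lp_fpos {N q : ℕ} (w : Bool) (L : (Fin N → ℂ) →L[ℂ] (Fin N → ℂ)) {a : Alt N (2 * q)}
    (h : FPos w q a) : FPos w q (a.compContinuousLinearMap (L.restrictScalars ℝ)) := by
  unfold FPos at h ⊢
  split_ifs at h ⊢ with hw
  · refine ⟨lp_wpos L h.1, fun u hu v => ?_⟩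
    have h1 := h.2 u hu (fun i => L (v i))
    show a (fun i => L (u • v i)) = a (fun i => L (v i))
    rw [← h1]
    congr 1
    funext i
    exact map_smul L u (v i)
  · exact lp_spos L h

theorem gs_eq {k : ℕ} (g : E6) (β : E6 → Alt 6 k) : gs g β = lp (qmL g) β := by
  funext z
  unfold gs SIU.lp
  rw [qmL_apply]

theorem gs_apply {k : ℕ} (g : E6) (β : E6 → Alt 6 k) (z : E6) (v : Fin k → E6) :
    gs g β z v = β (qm g z) (fun i => qm g (v i)) := by
  rw [gs_eq, lp_apply, qmL_apply]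
  congr 1
  funext i
  exact qmL_apply g (v i)

theorem gsf (hQ : QuaStmt) : GsfStmt := by
  intro g hg
  have hm : ∀ z ∈ X1.U, qmL g z ∈ X1.U := fun z hz => by
    rw [qmL_apply]
    exact (hQ.2.1 g z).mpr ⟨hg, hz⟩
  have hm' : ∀ z ∈ X1.U, qm g z ∈ X1.U := fun z hz => (hQ.2.1 g z).mpr ⟨hg, hz⟩
  refine ⟨fun k β h => ?_, fun k β h => ?_, fun k β h => ?_, fun k β h z hz => ?_,
    fun k β h z hz => ?_, fun w q β z h => ?_, fun k u β => ?_, fun k β h => ?_⟩
  · rw [gs_eq]; exact lp_cont _ h hm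
  · refine ⟨fun z hz c hc v => ?_, fun z hz v i hv => ?_⟩
    · rw [gs_apply, gs_apply, ← h.1 (qm g z) (hm' z hz) c hc]
      rw [hQ.2.2.2.1]
      congr 1
      funext i
      exact (hQ.2.2.2.1 c g (v i)).symm
    · rw [gs_apply]
      apply h.2 (qm g z) (hm' z hz) _ i
      obtain ⟨a, ha⟩ := (vert1_iff z (v i)).mp hv
      rw [vert1_iff]
      refine ⟨a, ?_⟩
      rw [ha, ← hQ.2.2.2.1]
  · rw [gs_eq]; exact lp_smooth _ _ h hm
  · rw [gs_eq, gs_eq]
    exact lp_extDeriv _ ((h _ (hm z hz)).differentiableAt (isOpen_U1.mem_nhds (hm z hz)))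
  · rw [gs_eq, gs_eq]
    exact lp_ddc _ isOpen_U1 hm h hz
  · unfold gs
    exact lp_fpos w (qmL g) h
  · funext z
    ext v
    rw [gs_apply]
    show β (qm g z) (fun i => u • qm g (v i)) = gs g β z (fun i => u • v i)
    rw [gs_apply]
    congr 1
    funext i
    rw [← qmL_apply, ← qmL_apply]
    exact (map_smul (qmL g) u (v i)).symm
  · intro z hz u hu v
    have h1 := h (qm g z) (hm' z hz) u hu (fun i => qm g (v i))
    rw [gs_apply, gs_apply, ← h1]
    congr 1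
    funext i
    rw [← qmL_apply, ← qmL_apply]
    exact map_smul (qmL g) u (v i)

end Pool.Agent.SIQ.H75
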