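import Pool.Agent.Helper75_SIQ.GSF
import Pool.Agent.Helper15_SIU.Stmts

/-!
# MP_021b97_an, Q1: symmetry of `dd^c`
-/

set_option autoImplicit false

open MeasureTheory Filter Topology

namespace Pool.Agent.SIQ.H75

open Pool.Agent.SIU

/-! ## signs -/

theorem tensor_neg_left {N k l : ℕ} (a : Alt N k) (b : Alt N l) :
    tensor (-a) b = -(tensor a b) := by
  ext v
  show (-(a _)) * b _ = -(a _ * b _)
  ring

theorem tensor_neg_right {N k l : ℕ} (a : Alt N k) (b : Alt N l) :
    tensor a (-b) = -(tensor a b) := by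
  ext v
  show a _ * (-(b _)) = -(a _ * b _)
  ring

theorem wedge_neg_left {N k l : ℕ} (a : Alt N k) (b : Alt N l) :
    wedge (-a) b = -(wedge a b) := by
  unfold wedge
  rw [tensor_neg_left, map_neg, smul_neg]

theorem wedge_neg_right {N k l : ℕ} (a : Alt N k) (b : Alt N l) :
    wedge a (-b) = -(wedge a b) := by
  unfold wedge
  rw [tensor_neg_right, map_neg, smul_neg]

theorem pull_neg {N n k : ℕ} (g : (Fin n → ℂ) → Fin N → ℂ) (ω : (Fin N → ℂ) → Alt N k)
    (x : Fin n → ℂ) : Toric.pull g (fun z => -(ω z)) x = -(Toric.pull g ω x) := by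
  ext v
  rfl

theorem pair_neg_left {N r n k l : ℕ} (X : Toric N r n) (a : (Fin N → ℂ) → Alt N k)
    (b : (Fin N → ℂ) → Alt N l) : X.pair (fun z => -(a z)) b = -(X.pair a b) := by
  unfold Toric.pair
  rw [← integral_neg]
  congr 1
  funext x
  rw [pull_neg, wedge_neg_left]
  rfl

theorem pair_neg_right {N r n k l : ℕ} (X : Toric N r n) (a : (Fin N → ℂ) → Alt N k)
    (b : (Fin N → ℂ) → Alt N l) : X.pair a (fun z => -(b z)) = -(X.pair a b) := by
  unfold Toric.pair
  rw [← integral_neg]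
  congr 1
  funext x
  rw [pull_neg, wedge_neg_right]
  rfl

theorem ddc_eq {k : ℕ} (a : E6 → Alt 6 k) :
    ddc a = fun z => -(extDeriv (rotF Complex.I (extDeriv a)) z) := rfl

theorem rot_neg {k : ℕ} (hk : Odd k) (u : ℂ) (β : E6 → Alt 6 k) :
    rotF (-u) β = fun z => -(rotF u β z) := by
  funext z
  ext v
  show β z (fun i => (-u) • v i) = -(β z (fun i => u • v i))
  have h1 : (fun i => (-u) • v i) = fun i => (-1 : ℝ) • (u • v i) := by
    funext i
    rw [neg_smul, neg_smul, one_smul]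
  rw [h1]
  have h2 := (β z).toContinuousMultilinearMap.map_smul_univ (fun _ : Fin k => (-1 : ℝ))
    (fun i => u • v i)
  have h3 : (∏ _i : Fin k, (-1 : ℝ)) = -1 := by
    rw [Finset.prod_const, Finset.card_univ, Fintype.card_fin, hk.neg_one_pow]
  rw [h3, neg_smul, one_smul] at h2
  exact h2

theorem rot_rot {k : ℕ} (β : E6 → Alt 6 k) :
    rotF Complex.I (rotF (-Complex.I) β) = β := by
  funext z
  ext v
  show β z (fun i => (-Complex.I) • (Complex.I • v i)) = β z v
  congr 1
  funext i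
  rw [smul_smul]
  simp

/-! ## smoothness -/

theorem ext_C1 {N k : ℕ} {η : (Fin N → ℂ) → Alt N k} {V : Set (Fin N → ℂ)}
    (hV : IsOpen V) (h : ContDiffOn ℝ 2 η V) : ContDiffOn ℝ 1 (extDeriv η) V := by
  have h1 : ContDiffOn ℝ 1 (fderiv ℝ η) V := h.fderiv_of_isOpen hV (by norm_num)
  have h3 : extDeriv η = fun w =>
      ContinuousAlternatingMap.alternatizeUncurryFinCLM ℝ (Fin N → ℂ) ℝ (fderiv ℝ η w) := by
    funext w
    rfl
  rw [h3]
  exact (ContinuousLinearMap.contDiff _).comp_contDiffOn h1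

theorem rot_C1 {k : ℕ} {η : E6 → Alt 6 k} {V : Set E6} {m : WithTop ℕ∞}
    (h : ContDiffOn ℝ m η V) (u : ℂ) : ContDiffOn ℝ m (rotF u η) V := by
  have h3 : rotF u η = fun w =>
      ContinuousAlternatingMap.compContinuousLinearMapCLM (mulC 6 u) (η w) := by
    funext w
    rfl
  rw [h3]
  exact (ContinuousLinearMap.contDiff _).comp_contDiffOn h

theorem dds (h1 : StxStmt) (h2 : InvStmt) (h3 : BsdStmt) : DdsStmt := by
  intro k l hkl hk a b ha hab hb hbb
  have B := h3 6 3 3 X1 X1.U isOpen_U1 sat_U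
  have hda : X1.BasicOn X1.U (extDeriv a) := B.1 k a (ha.differentiableOn (by simp)) hab
  have hdb : X1.BasicOn X1.U (extDeriv b) := B.1 l b (hb.differentiableOn (by simp)) hbb
  have hta : X1.BasicOn X1.U (rotF Complex.I (extDeriv a)) := B.2.2 _ _ Complex.I hda
  have htb : X1.BasicOn X1.U (rotF Complex.I (extDeriv b)) := B.2.2 _ _ Complex.I hdb
  have htb' : X1.BasicOn X1.U (rotF (-Complex.I) (extDeriv b)) := B.2.2 _ _ (-Complex.I) hdb
  have ca := ext_C1 isOpen_U1 ha
  have cb := ext_C1 isOpen_U1 hb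
  have cta := rot_C1 ca Complex.I
  have ctb := rot_C1 cb Complex.I
  have ctb' := rot_C1 cb (-Complex.I)
  have hl : Odd (l + 1) := by
    obtain ⟨r, hr⟩ := hk
    exact ⟨2 - r, by omega⟩
  -- first integration by parts
  have e1 := h1 (k + 1) l (by omega) (rotF Complex.I (extDeriv a)) b cta hta
    (hb.of_le (by norm_num)) hbb
  have e2 := h1 k (l + 1) (by omega) a (rotF Complex.I (extDeriv b)) (ha.of_le (by norm_num)) hab
    ctb htb
  have s1 : ((-1 : ℝ)) ^ (k + 1) = -1 := hk.add_one.neg_one_pow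
  have s2 : ((-1 : ℝ)) ^ k = 1 := hk.neg_one_pow
  rw [s1] at e1
  rw [s2] at e2
  have e3 := (h2 (k + 1) (l + 1) (by omega) (extDeriv a) (rotF (-Complex.I) (extDeriv b))
    ca.continuousOn hda ctb'.continuousOn htb').2.1 Complex.I (by simp)
  rw [rot_rot, rot_neg hl, pair_neg_right] at e3
  rw [ddc_eq a, ddc_eq b, pair_neg_left, pair_neg_right]
  linarith

end Pool.Agent.SIQ.H75
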